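import Pool.Agent.H624R3.CP.Stmts

/-!
# The variational inequality on a subspace
-/

set_option autoImplicit false

open MeasureTheory Metric Real Filter Topology

namespace Pool.Agent.H783R3.CP

open Pool.Agent.H624R3.CP

/-- Integrals of products of functions of the two projections. -/
theorem integral_decomp {d : ℕ} (S : Submodule ℝ (E d)) (g : S → ℝ) (h : Sᗮ → ℝ) :
    ∫ y : E d, g (S.orthogonalProjectionOnto y) * h (Sᗮ.orthogonalProjectionOnto y) =
      (∫ u, g u) * ∫ v, h v := by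
  let e : E d ≃ᵐ S × Sᗮ := S.orthogonalDecomposition.toHomeomorph.toMeasurableEquiv.trans
    (MeasurableEquiv.toLp 2 _).symm
  have he : MeasurePreserving e volume (volume.prod volume) :=
    S.orthogonalDecomposition.measurePreserving.trans (WithLp.volume_preserving_ofLp _ _)
  have h1 := he.integral_comp' (g := fun z : S × Sᗮ => g z.1 * h z.2)
  rw [integral_prod_mul] at h1
  rw [← h1]
  refine integral_congr_ae (Eventually.of_forall (fun y => ?_))
  have h2 : e y = (S.orthogonalProjectionOnto y, Sᗮ.orthogonalProjectionOnto y) := by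
    show (MeasurableEquiv.toLp 2 _).symm (S.orthogonalDecomposition y) = _
    rw [Submodule.orthogonalDecomposition_apply]
    rfl
  simp only [h2]

theorem norm_le_add {d : ℕ} (S : Submodule ℝ (E d)) (y : E d) :
    ‖y‖ ≤ ‖S.orthogonalProjectionOnto y‖ + ‖Sᗮ.orthogonalProjectionOnto y‖ := by
  have h1 := S.starProjection_add_starProjection_orthogonal y
  calc ‖y‖ = ‖S.starProjection y + Sᗮ.starProjection y‖ := by rw [h1]
    _ ≤ ‖S.starProjection y‖ + ‖Sᗮ.starProjection y‖ := norm_add_le _ _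
    _ = _ := rfl

theorem projQ_ne_zero {d : ℕ} (S : Submodule ℝ (E d)) (y : E d) (hy : y ∉ S) :
    0 < ‖Sᗮ.orthogonalProjectionOnto y‖ := by
  rw [norm_pos_iff]
  intro h
  apply hy
  have h1 := S.starProjection_add_starProjection_orthogonal y
  have h2 : Sᗮ.starProjection y = 0 := by
    show ((Sᗮ.orthogonalProjectionOnto y : Sᗮ) : E d) = 0
    rw [h]
    rfl
  rw [h2, add_zero] at h1
  rw [← h1]
  exact (S.orthogonalProjectionOnto y).2

theorem lattice_finite {d : ℕ} (M : Matrix (Fin d) (Fin d) ℝ) (hM : M.det ≠ 0) (B : ℝ) :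
    {z : Fin d → ℤ | ‖lp M z‖ ≤ B}.Finite := by
  let L : E d →L[ℝ] (Fin d → ℝ) :=
    (LinearMap.toContinuousLinearMap (Matrix.mulVecLin M⁻¹)).comp
      (EuclideanSpace.equiv (Fin d) ℝ).toContinuousLinearMap
  have hL : ∀ z : Fin d → ℤ, L (lp M z) = fun i => (z i : ℝ) := by
    intro z
    show M⁻¹.mulVec (M.mulVec (fun i => (z i : ℝ))) = _
    rw [Matrix.mulVec_mulVec, Matrix.nonsing_inv_mul _ (isUnit_iff_ne_zero.mpr hM),
      Matrix.one_mulVec]
  obtain ⟨N, hN⟩ := exists_nat_ge (‖L‖ * B)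
  refine Set.Finite.subset (Set.finite_Icc (fun _ => -(N : ℤ)) (fun _ => (N : ℤ))) ?_
  intro z hz
  have h1 : ‖L (lp M z)‖ ≤ N :=
    le_trans (L.le_opNorm _) (le_trans (mul_le_mul_of_nonneg_left hz (norm_nonneg _)) hN)
  rw [hL] at h1
  have h2 : ∀ i, |(z i : ℝ)| ≤ N := by
    intro i
    exact le_trans (norm_le_pi_norm (fun i => (z i : ℝ)) i) h1
  refine ⟨fun i => ?_, fun i => ?_⟩
  · have := (abs_le.mp (h2 i)).1
    exact_mod_cast this
  · have := (abs_le.mp (h2 i)).2
    exact_mod_cast this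

theorem exists_delta {d : ℕ} (M : Matrix (Fin d) (Fin d) ℝ) (hM : M.det ≠ 0)
    (S : Submodule ℝ (E d)) (R : ℝ) : ∃ δ : ℝ, 0 < δ ∧ ∀ z : Fin d → ℤ, lp M z ∉ S →
      ‖S.orthogonalProjectionOnto (lp M z)‖ ≤ 2 * R →
      2 * δ < ‖Sᗮ.orthogonalProjectionOnto (lp M z)‖ := by
  have hfin : {z : Fin d → ℤ | ‖lp M z‖ ≤ 2 * R + 2 ∧ lp M z ∉ S}.Finite :=
    (lattice_finite M hM (2 * R + 2)).subset (fun z hz => hz.1)
  have h1 : ∀ᶠ δ : ℝ in 𝓝[>] 0, ∀ z ∈ {z : Fin d → ℤ | ‖lp M z‖ ≤ 2 * R + 2 ∧ lp M z ∉ S},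
      2 * δ < ‖Sᗮ.orthogonalProjectionOnto (lp M z)‖ := by
    rw [eventually_all_finite hfin]
    intro z hz
    have h2 := projQ_ne_zero S _ hz.2
    have h3 : Tendsto (fun δ : ℝ => 2 * δ) (𝓝[>] 0) (𝓝 0) := by
      have : Tendsto (fun δ : ℝ => 2 * δ) (𝓝 0) (𝓝 (2 * 0)) :=
        (continuous_const.mul continuous_id).tendsto 0
      rw [mul_zero] at this
      exact this.mono_left nhdsWithin_le_nhds
    exact h3.eventually (gt_mem_nhds h2)
  have h4 : ∀ᶠ δ : ℝ in 𝓝[>] 0, δ < 1 :=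
    nhdsWithin_le_nhds (gt_mem_nhds one_pos)
  have h5 : ∀ᶠ δ : ℝ in 𝓝[>] 0, 0 < δ := eventually_mem_nhdsWithin
  obtain ⟨δ, ⟨h6, h7⟩, h8⟩ := ((h1.and h4).and h5).exists
  refine ⟨δ, h8, fun z hzS hzP => ?_⟩
  by_contra hcon
  push Not at hcon
  have h9 : ‖lp M z‖ ≤ 2 * R + 2 := by
    have := norm_le_add S (lp M z)
    linarith
  have := h6 z ⟨h9, hzS⟩
  linarith

theorem proj_add_mem {d : ℕ} (S : Submodule ℝ (E d)) (y w : E d) (hw : w ∈ S) :
    S.orthogonalProjectionOnto (y + w) = S.orthogonalProjectionOnto y + ⟨w, hw⟩ ∧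
    Sᗮ.orthogonalProjectionOnto (y + w) = Sᗮ.orthogonalProjectionOnto y := by
  constructor
  · rw [map_add]
    congr 1
    exact S.orthogonalProjectionOnto_mem_subspace_eq_self ⟨w, hw⟩
  · rw [map_add, Submodule.orthogonalProjectionOnto_orthogonal_apply_eq_zero hw, add_zero]

/-- The overlap sums. -/
theorem overlap {d : ℕ} (M : Matrix (Fin d) (Fin d) ℝ) (S : Submodule ℝ (E d)) (R δ : ℝ)
    (g : S → ℝ) (η : Sᗮ → ℝ) (hg : ∀ u, g u ≠ 0 → ‖u‖ ≤ R) (hη : ∀ v, η v ≠ 0 → ‖v‖ ≤ δ)
    (hδ : ∀ z : Fin d → ℤ, lp M z ∉ S → ‖S.orthogonalProjectionOnto (lp M z)‖ ≤ 2 * R →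
      2 * δ < ‖Sᗮ.orthogonalProjectionOnto (lp M z)‖) :
    ∑' z : {z : Fin d → ℤ // z ≠ 0}, ∫ y : E d,
      (g (S.orthogonalProjectionOnto y) * η (Sᗮ.orthogonalProjectionOnto y)) *
      (g (S.orthogonalProjectionOnto (y + lp M z)) *
        η (Sᗮ.orthogonalProjectionOnto (y + lp M z))) =
    (∑' z : {z : Fin d → ℤ // z ≠ 0 ∧ lp M z ∈ S},
      ∫ u : S, g u * g (u + ⟨lp M z, z.2.2⟩)) * ∫ v, η v ^ 2 := by
  classical
  rw [← tsum_mul_right]
  let K : (Fin d → ℤ) → ℝ := fun z =>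
    if h : lp M z ∈ S then (∫ u : S, g u * g (u + ⟨lp M z, h⟩)) * ∫ v, η v ^ 2 else 0
  have hK1 : ∀ z : Fin d → ℤ, ∫ y : E d,
      (g (S.orthogonalProjectionOnto y) * η (Sᗮ.orthogonalProjectionOnto y)) *
      (g (S.orthogonalProjectionOnto (y + lp M z)) *
        η (Sᗮ.orthogonalProjectionOnto (y + lp M z))) = K z := by
    intro z
    by_cases h : lp M z ∈ S
    · have hKz : K z = (∫ u : S, g u * g (u + ⟨lp M z, h⟩)) * ∫ v, η v ^ 2 := dif_pos h
      rw [hKz, ← integral_decomp S (fun u => g u * g (u + ⟨lp M z, h⟩)) (fun v => η v ^ 2)]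
      refine integral_congr_ae (Eventually.of_forall (fun y => ?_))
      have h1 := proj_add_mem S y (lp M z) h
      simp only [h1.1, h1.2]
      ring
    · have hKz : K z = 0 := dif_neg h
      rw [hKz]
      have hz : ∀ y : E d,
          (g (S.orthogonalProjectionOnto y) * η (Sᗮ.orthogonalProjectionOnto y)) *
          (g (S.orthogonalProjectionOnto (y + lp M z)) *
            η (Sᗮ.orthogonalProjectionOnto (y + lp M z))) = 0 := by
        intro y
        by_contra hne
        have h1 := left_ne_zero_of_mul hne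
        have h2 := right_ne_zero_of_mul hne
        have a1 := hg _ (left_ne_zero_of_mul h1)
        have a2 := hη _ (right_ne_zero_of_mul h1)
        have a3 := hg _ (left_ne_zero_of_mul h2)
        have a4 := hη _ (right_ne_zero_of_mul h2)
        have b1 : S.orthogonalProjectionOnto (lp M z) =
            S.orthogonalProjectionOnto (y + lp M z) - S.orthogonalProjectionOnto y := by
          rw [map_add]; abel
        have b2 : Sᗮ.orthogonalProjectionOnto (lp M z) =
            Sᗮ.orthogonalProjectionOnto (y + lp M z) - Sᗮ.orthogonalProjectionOnto y := by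
          rw [map_add]; abel
        have c1 : ‖S.orthogonalProjectionOnto (lp M z)‖ ≤ 2 * R := by
          rw [b1]
          refine le_trans (norm_sub_le _ _) ?_
          linarith
        have c2 : ‖Sᗮ.orthogonalProjectionOnto (lp M z)‖ ≤ 2 * δ := by
          rw [b2]
          refine le_trans (norm_sub_le _ _) ?_
          linarith
        exact absurd (hδ z h c1) (not_lt.mpr c2)
      simp only [hz, integral_zero]
  have hK2 : ∀ z : {z : Fin d → ℤ // z ≠ 0 ∧ lp M z ∈ S},
      (∫ u : S, g u * g (u + ⟨lp M z, z.2.2⟩)) * ∫ v, η v ^ 2 = K z := by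
    intro z
    have hKz : K z = (∫ u : S, g u * g (u + ⟨lp M z, z.2.2⟩)) * ∫ v, η v ^ 2 := dif_pos z.2.2
    exact hKz.symm
  rw [tsum_congr (fun z : {z : Fin d → ℤ // z ≠ 0} => hK1 z), tsum_congr hK2]
  have e1 := tsum_subtype {z : Fin d → ℤ | z ≠ 0} K
  have e2 := tsum_subtype {z : Fin d → ℤ | z ≠ 0 ∧ lp M z ∈ S} K
  refine e1.trans (Eq.trans ?_ e2.symm)
  refine tsum_congr (fun z => ?_)
  by_cases h0 : z ≠ 0
  · by_cases h : lp M z ∈ S
    · rw [Set.indicator_of_mem (show z ∈ {z : Fin d → ℤ | z ≠ 0} from h0),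
        Set.indicator_of_mem (show z ∈ {z : Fin d → ℤ | z ≠ 0 ∧ lp M z ∈ S} from ⟨h0, h⟩)]
    · rw [Set.indicator_of_mem (show z ∈ {z : Fin d → ℤ | z ≠ 0} from h0),
        Set.indicator_of_notMem (show z ∉ {z : Fin d → ℤ | z ≠ 0 ∧ lp M z ∈ S} from
          fun h' => h h'.2)]
      exact dif_neg h
  · rw [Set.indicator_of_notMem (show z ∉ {z : Fin d → ℤ | z ≠ 0} from h0),
      Set.indicator_of_notMem (show z ∉ {z : Fin d → ℤ | z ≠ 0 ∧ lp M z ∈ S} from
        fun h' => h0 h'.1)]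

/-- The projection of the gradient. -/
theorem proj_gradient {d : ℕ} (S : Submodule ℝ (E d)) (f : S → ℝ) (η : Sᗮ → ℝ)
    (hf : Differentiable ℝ f) (hη : Differentiable ℝ η) (y : E d) :
    S.orthogonalProjectionOnto (gradient (fun y : E d =>
      f (S.orthogonalProjectionOnto y) * η (Sᗮ.orthogonalProjectionOnto y)) y) =
      η (Sᗮ.orthogonalProjectionOnto y) • gradient f (S.orthogonalProjectionOnto y) := by
  have h1 : HasFDerivAt (fun y : E d => f (S.orthogonalProjectionOnto y))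
      ((fderiv ℝ f (S.orthogonalProjectionOnto y)).comp S.orthogonalProjectionOnto) y :=
    (hf _).hasFDerivAt.comp y (S.orthogonalProjectionOnto).hasFDerivAt
  have h2 : HasFDerivAt (fun y : E d => η (Sᗮ.orthogonalProjectionOnto y))
      ((fderiv ℝ η (Sᗮ.orthogonalProjectionOnto y)).comp Sᗮ.orthogonalProjectionOnto) y :=
    (hη _).hasFDerivAt.comp y (Sᗮ.orthogonalProjectionOnto).hasFDerivAt
  have h3 := (h1.mul h2).fderiv
  refine ext_inner_right ℝ (fun u => ?_)
  have h4 : inner ℝ (S.orthogonalProjectionOnto (gradient (fun y : E d =>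
      f (S.orthogonalProjectionOnto y) * η (Sᗮ.orthogonalProjectionOnto y)) y)) u =
      fderiv ℝ (fun y : E d =>
      f (S.orthogonalProjectionOnto y) * η (Sᗮ.orthogonalProjectionOnto y)) y (u : E d) := by
    rw [Submodule.inner_orthogonalProjectionOnto_eq_of_mem_right]
    unfold gradient
    rw [InnerProductSpace.toDual_symm_apply]
  have h5 : inner ℝ (η (Sᗮ.orthogonalProjectionOnto y) •
      gradient f (S.orthogonalProjectionOnto y)) u =
      η (Sᗮ.orthogonalProjectionOnto y) * fderiv ℝ f (S.orthogonalProjectionOnto y) u := by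
    refine (real_inner_smul_left (gradient f (S.orthogonalProjectionOnto y)) u
      (η (Sᗮ.orthogonalProjectionOnto y))).trans ?_
    unfold gradient
    rw [InnerProductSpace.toDual_symm_apply]
  rw [h4, h5]
  have h6 : fderiv ℝ (fun y : E d =>
      f (S.orthogonalProjectionOnto y) * η (Sᗮ.orthogonalProjectionOnto y)) y =
      f (S.orthogonalProjectionOnto y) •
        ((fderiv ℝ η (Sᗮ.orthogonalProjectionOnto y)).comp Sᗮ.orthogonalProjectionOnto) +
      η (Sᗮ.orthogonalProjectionOnto y) •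
        ((fderiv ℝ f (S.orthogonalProjectionOnto y)).comp S.orthogonalProjectionOnto) := h3
  rw [h6]
  have h7 : S.orthogonalProjectionOnto (u : E d) = u :=
    S.orthogonalProjectionOnto_mem_subspace_eq_self u
  have h8 : Sᗮ.orthogonalProjectionOnto (u : E d) = 0 :=
    Submodule.orthogonalProjectionOnto_orthogonal_apply_eq_zero u.2
  simp only [add_apply, smul_apply,
    ContinuousLinearMap.comp_apply, h7, h8, map_zero, mul_zero, zero_add, smul_eq_mul]

theorem taskSUB (hSPEC : TaskSPEC) : TaskSUB := by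
  intro d M S f x0 r hM hf hfc hr hx0
  -- the radius of the support
  obtain ⟨R, hR⟩ := hfc.isCompact.isBounded.subset_closedBall (0 : S)
  have hsup : ∀ u, u ∈ tsupport f → ‖u‖ ≤ R := by
    intro u hu
    have := hR hu
    rwa [mem_closedBall, dist_zero_right] at this
  obtain ⟨δ, hδ0, hδ⟩ := exists_delta M hM S R
  let η : ContDiffBump (0 : Sᗮ) := ⟨δ / 2, δ, by linarith, by linarith⟩
  have hηs : ∀ v, η v ≠ 0 → ‖v‖ ≤ δ := by
    intro v hv
    have h1 : v ∈ Function.support η := hv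
    rw [η.support_eq, mem_ball, dist_zero_right] at h1
    exact h1.le
  have hη0 : ∀ v, 0 ≤ η v := fun v => η.nonneg
  have hηd : ContDiff ℝ 1 (η : Sᗮ → ℝ) := η.contDiff
  -- the function
  obtain ⟨H, hH⟩ : ∃ H : E d → ℝ, H = fun y => f (S.orthogonalProjectionOnto y) *
      η (Sᗮ.orthogonalProjectionOnto y) := ⟨_, rfl⟩
  have hHd : ContDiff ℝ 1 H := by
    rw [hH]
    exact (hf.comp (S.orthogonalProjectionOnto).contDiff).mul
      (hηd.comp (Sᗮ.orthogonalProjectionOnto).contDiff)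
  have hHc : HasCompactSupport H := by
    refine HasCompactSupport.intro (isCompact_closedBall (0 : E d) (R + δ)) (fun y hy => ?_)
    by_contra hne
    apply hy
    rw [hH] at hne
    have h1 := hsup _ (subset_tsupport f (left_ne_zero_of_mul hne))
    have h2 := hηs _ (right_ne_zero_of_mul hne)
    rw [mem_closedBall, dist_zero_right]
    refine le_trans (norm_le_add S y) ?_
    linarith
  have key := hSPEC d M H S x0 r hM hHd hHc hr hx0
  -- the gradient
  have hgrad : ∀ y, pn S (gradient H y) = ‖gradient f (S.orthogonalProjectionOnto y)‖ *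
      η (Sᗮ.orthogonalProjectionOnto y) := by
    intro y
    have h1 : pn S (gradient H y) = ‖S.orthogonalProjectionOnto (gradient H y)‖ := rfl
    rw [h1, hH, proj_gradient S f η (hf.differentiable one_ne_zero)
      (hηd.differentiable one_ne_zero) y, norm_smul, Real.norm_of_nonneg (hη0 _), mul_comm]
  have habs : ∀ y, |H y| = |f (S.orthogonalProjectionOnto y)| *
      η (Sᗮ.orthogonalProjectionOnto y) := by
    intro y
    rw [hH]
    show |_ * _| = _
    rw [abs_mul, abs_of_nonneg (hη0 _)]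
  have hc : 0 < ∫ v, η v ^ 2 := by
    refine Continuous.integral_pos_of_hasCompactSupport_nonneg_nonzero (x := (0 : Sᗮ))
      (η.continuous.pow 2) ?_ (fun v => sq_nonneg _) ?_
    · exact η.hasCompactSupport.comp_left (g := fun t : ℝ => t ^ 2) (by norm_num)
    · have h1 : 0 < η (0 : Sᗮ) := η.pos_of_mem_ball (mem_ball_self hδ0)
      exact (pow_pos h1 2).ne'
  -- the four terms
  have t1 : ∫ y, H y ^ 2 = (∫ u : S, f u ^ 2) * ∫ v, η v ^ 2 := by
    rw [← integral_decomp S (fun u => f u ^ 2) (fun v => η v ^ 2)]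
    refine integral_congr_ae (Eventually.of_forall (fun y => ?_))
    rw [hH]
    ring
  have t2 : ∫ y, pn S (gradient H y) ^ 2 = (∫ u : S, ‖gradient f u‖ ^ 2) * ∫ v, η v ^ 2 := by
    rw [← integral_decomp S (fun u => ‖gradient f u‖ ^ 2) (fun v => η v ^ 2)]
    refine integral_congr_ae (Eventually.of_forall (fun y => ?_))
    simp only [hgrad]
    ring
  have t3 : ∑' z : {z : Fin d → ℤ // z ≠ 0}, ∫ y, |H y| * |H (y + lp M z)| =
      (∑' z : {z : Fin d → ℤ // z ≠ 0 ∧ lp M z ∈ S},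
        ∫ u : S, |f u| * |f (u + ⟨lp M z, z.2.2⟩)|) * ∫ v, η v ^ 2 := by
    rw [← overlap M S R δ (fun u => |f u|) η (fun u hu => hsup u (subset_tsupport f (by
      simpa using hu))) hηs hδ]
    simp only [habs]
  have t4 : ∑' z : {z : Fin d → ℤ // z ≠ 0},
      ∫ y, pn S (gradient H y) * pn S (gradient H (y + lp M z)) =
      (∑' z : {z : Fin d → ℤ // z ≠ 0 ∧ lp M z ∈ S},
        ∫ u : S, ‖gradient f u‖ * ‖gradient f (u + ⟨lp M z, z.2.2⟩)‖) * ∫ v, η v ^ 2 := by
    rw [← overlap M S R δ (fun u => ‖gradient f u‖) η (fun u hu => hsup u ?_) hηs hδ]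
    · simp only [hgrad]
    · apply support_fderiv_subset ℝ
      intro h0
      apply hu
      show ‖gradient f u‖ = 0
      unfold gradient
      rw [h0, LinearIsometryEquiv.map_zero, norm_zero]
  rw [t1, t2, t3, t4] at key
  obtain ⟨c, hc'⟩ : ∃ c, c = ∫ v, η v ^ 2 := ⟨_, rfl⟩
  rw [← hc'] at key hc
  refine le_of_mul_le_mul_right ?_ hc
  calc _ = 4 * π ^ 2 * r ^ 2 * ((∫ u : S, f u ^ 2) * c -
      (∑' z : {z : Fin d → ℤ // z ≠ 0 ∧ lp M z ∈ S},
        ∫ u : S, |f u| * |f (u + ⟨lp M z, z.2.2⟩)|) * c) := by ring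
    _ ≤ _ := key
    _ = _ := by ring

end Pool.Agent.H783R3.CP
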